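import Pool.Agent.H.MP_330ad9_al.B

set_option autoImplicit false

namespace Pool.Agent.Results.MP_330ad9_al.Lattice

variable {B : Type} {M : CoxeterMatrix B} {W : Type} [Group W]

/-- `i ∈ supp v`: the generator `s_i` occurs in a reduced word for `v`. -/
def Supp (cs : CoxeterSystem M W) (v : W) (i : B) : Prop :=
  ∃ ω : List B, cs.IsReduced ω ∧ cs.wordProd ω = v ∧ i ∈ ω

/-- `J ∈ BP(w)`: the parabolic factorisation `w = v u`, `v ∈ W^J`, `u ∈ W_J`, satisfies
`supp v ∩ J ⊆ D_L(u)`. -/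
def BP (cs : CoxeterSystem M W) (w : W) (J : Set B) : Prop :=
  ∃ v u : W, w = v * u ∧ (∀ i ∈ J, cs.length v < cs.length (v * cs.simple i)) ∧
    u ∈ Subgroup.closure (cs.simple '' J) ∧
    ∀ i ∈ J, Supp cs v i → cs.length (cs.simple i * u) < cs.length u

open Pool.Agent.H.MP_330ad9_al in
theorem result (B : Type) (M : CoxeterMatrix B) (W : Type) [Group W] (cs : CoxeterSystem M W)
    (w : W) (J K : Set B) (hJ : BP cs w J) (hK : BP cs w K) :
    BP cs w (J ∩ K) ∧ BP cs w (J ∪ K) := by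
  obtain ⟨a, ha⟩ := bw_iff.mpr hJ
  obtain ⟨b, hb⟩ := bw_iff.mpr hK
  exact ⟨bw_iff.mp (ha.inter hb), bw_iff.mp (ha.union hb)⟩

end Pool.Agent.Results.MP_330ad9_al.Lattice
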